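import Mathlib

open LaurentPolynomial

namespace Pool.Agent.Results.MP_625351_al.BoxSpaces

/-! ### Word length and diameter -/

section Words

variable {Q : Type} [Group Q]

/-- Word length with respect to `S ∪ S⁻¹`. -/
noncomputable def wlen (S : Set Q) (q : Q) : ℕ :=
  sInf {n | ∃ l : List Q, l.length = n ∧ (∀ x ∈ l, x ∈ S ∨ x⁻¹ ∈ S) ∧ l.prod = q}

/-- Diameter of the Cayley graph of `Q` with respect to `S`. -/
noncomputable def diam (S : Set Q) : ℕ := sSup {n | ∃ q r : Q, n = wlen S (q⁻¹ * r)}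

theorem wlen_le {S : Set Q} {l : List Q} (hl : ∀ x ∈ l, x ∈ S ∨ x⁻¹ ∈ S) :
    wlen S l.prod ≤ l.length := Nat.sInf_le ⟨l, rfl, hl, rfl⟩

theorem exists_word {S : Set Q} {q : Q} (hq : q ∈ Subgroup.closure S) :
    ∃ l : List Q, (∀ x ∈ l, x ∈ S ∨ x⁻¹ ∈ S) ∧ l.prod = q := by
  induction hq using Subgroup.closure_induction with
  | mem x hx => exact ⟨[x], by simpa using Or.inl hx, by simp⟩
  | one => exact ⟨[], by simp, rfl⟩
  | mul x y _ _ hx hy =>
    obtain ⟨l, hl, rfl⟩ := hx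
    obtain ⟨l', hl', rfl⟩ := hy
    refine ⟨l ++ l', ?_, by simp⟩
    intro x hx
    rcases List.mem_append.1 hx with h | h
    · exact hl x h
    · exact hl' x h
  | inv x _ hx =>
    obtain ⟨l, hl, rfl⟩ := hx
    refine ⟨(l.map fun x => x⁻¹).reverse, ?_, by rw [List.prod_inv_reverse]⟩
    intro x hx
    simp only [List.mem_reverse, List.mem_map] at hx
    obtain ⟨y, hy, rfl⟩ := hx
    rcases hl y hy with h | h
    · right; simpa using h
    · left; exact h

theorem exists_geo {S : Set Q} {q : Q} (hq : q ∈ Subgroup.closure S) :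
    ∃ l : List Q, l.length = wlen S q ∧ (∀ x ∈ l, x ∈ S ∨ x⁻¹ ∈ S) ∧ l.prod = q := by
  obtain ⟨l, hl, hq⟩ := exists_word hq
  exact Nat.sInf_mem (s := {n | ∃ l : List Q, l.length = n ∧ (∀ x ∈ l, x ∈ S ∨ x⁻¹ ∈ S) ∧
    l.prod = q}) ⟨l.length, l, rfl, hl, hq⟩

theorem wlen_mul {S : Set Q} (hS : Subgroup.closure S = ⊤) (g h : Q) :
    wlen S (g * h) ≤ wlen S g + wlen S h := by
  obtain ⟨l, h1, h2, h3⟩ := exists_geo (q := g) (S := S) (by rw [hS]; trivial)
  obtain ⟨l', h1', h2', h3'⟩ := exists_geo (q := h) (S := S) (by rw [hS]; trivial)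
  have := wlen_le (S := S) (l := l ++ l') (by
    intro x hx
    rcases List.mem_append.1 hx with h | h
    · exact h2 x h
    · exact h2' x h)
  rw [List.prod_append, h3, h3', List.length_append, h1, h1'] at this
  exact this

theorem wlen_one (S : Set Q) : wlen S 1 = 0 := by
  have := wlen_le (S := S) (l := []) (by simp)
  simpa using this

theorem wlen_pow {S : Set Q} (hS : Subgroup.closure S = ⊤) (g : Q) (k : ℕ) :
    wlen S (g ^ k) ≤ k * wlen S g := by
  induction k with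
  | zero => simp [wlen_one]
  | succ k ih =>
    rw [pow_succ]
    have := wlen_mul hS (g ^ k) g
    nlinarith

theorem wlen_map {R : Type} [Group R] {S : Set Q} (hS : Subgroup.closure S = ⊤) (f : Q →* R)
    (g : Q) : wlen (f '' S) (f g) ≤ wlen S g := by
  obtain ⟨l, h1, h2, h3⟩ := exists_geo (q := g) (S := S) (by rw [hS]; trivial)
  rw [← h1, ← h3, map_list_prod, ← List.length_map f]
  apply wlen_le
  intro x hx
  obtain ⟨y, hy, rfl⟩ := List.mem_map.1 hx
  rcases h2 y hy with h | h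
  · left; exact ⟨y, h, rfl⟩
  · right; exact ⟨y⁻¹, h, map_inv f y⟩

theorem diam_le {S : Set Q} {r : ℕ} (h : ∀ q : Q, wlen S q ≤ r) : diam S ≤ r := by
  apply csSup_le'
  rintro n ⟨q, s, rfl⟩
  exact h _

theorem le_diam [Finite Q] (S : Set Q) (q : Q) : wlen S q ≤ diam S := by
  apply le_csSup
  · have : {n | ∃ q r : Q, n = wlen S (q⁻¹ * r)} =
        Set.range fun p : Q × Q => wlen S (p.1⁻¹ * p.2) := by
      ext n
      constructor
      · rintro ⟨q, r, rfl⟩; exact ⟨(q, r), rfl⟩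
      · rintro ⟨⟨q, r⟩, rfl⟩; exact ⟨q, r, rfl⟩
    rw [this]
    exact (Set.finite_range _).bddAbove
  · exact ⟨1, q, by simp⟩

end Words

/-! ### The group and its congruence subgroups -/

/-- The ring `ℤ[X, X⁻¹]`. -/
abbrev A : Type := LaurentPolynomial ℤ

/-- The group `ℤ ≀ ℤ = A ⋊ ℤ`. -/
@[ext] structure ZZ where
  /-- the `A` coordinate -/
  P : A
  /-- the `ℤ` coordinate -/
  n : ℤ

namespace ZZ

noncomputable instance : Mul ZZ := ⟨fun g h => ⟨g.P + T g.n * h.P, g.n + h.n⟩⟩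
noncomputable instance : One ZZ := ⟨⟨0, 0⟩⟩
noncomputable instance : Inv ZZ := ⟨fun g => ⟨-(T (-g.n) * g.P), -g.n⟩⟩

@[simp] theorem mul_P (g h : ZZ) : (g * h).P = g.P + T g.n * h.P := rfl
@[simp] theorem mul_n (g h : ZZ) : (g * h).n = g.n + h.n := rfl
@[simp] theorem one_P : (1 : ZZ).P = 0 := rfl
@[simp] theorem one_n : (1 : ZZ).n = 0 := rfl
@[simp] theorem inv_P (g : ZZ) : (g⁻¹).P = -(T (-g.n) * g.P) := rfl
@[simp] theorem inv_n (g : ZZ) : (g⁻¹).n = -g.n := rfl

noncomputable instance : Group ZZ where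
  mul_assoc g h k := by
    ext1
    · simp only [mul_P, mul_n, T_add]; ring
    · simp [add_assoc]
  one_mul g := by
    ext1
    · simp
    · simp
  mul_one g := by
    ext1
    · simp
    · simp
  inv_mul_cancel g := by
    ext1
    · simp
    · simp

/-- The matrix `(X^n, P; 0, 1)` as an element of `GL₂(A)`. -/
noncomputable def mat (n : ℤ) (P : A) : GL (Fin 2) A where
  val := !![T n, P; 0, 1]
  inv := !![T (-n), -(T (-n) * P); 0, 1]
  val_inv := by
    have h : (T n * T (-n) : A) = 1 := by rw [← T_add]; simp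
    rw [Matrix.mul_fin_two, Matrix.one_fin_two]
    have h2 : T n * -(T (-n) * P) + P * 1 = 0 := by
      rw [mul_neg, ← mul_assoc, h]; ring
    rw [h, h2]
    simp
  inv_val := by
    have h : (T (-n) * T n : A) = 1 := by rw [← T_add]; simp
    rw [Matrix.mul_fin_two, Matrix.one_fin_two, h]
    simp

/-- The embedding of `ℤ ≀ ℤ` into `GL₂(A)`. -/
noncomputable def rho : ZZ →* GL (Fin 2) A where
  toFun g := mat g.n g.P
  map_one' := by
    apply Units.ext
    change !![T 0, 0; 0, 1] = 1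
    rw [T_zero, Matrix.one_fin_two]
  map_mul' g h := by
    apply Units.ext
    change !![T (g.n + h.n), g.P + T g.n * h.P; 0, 1] =
      !![T g.n, g.P; 0, 1] * !![T h.n, h.P; 0, 1]
    rw [Matrix.mul_fin_two, T_add]
    simp [add_comm, -T_mul]

/-- The congruence subgroup `G(I) = G ∩ ker (GL₂(A) → GL₂(A/I))`. -/
noncomputable def cong (I : Ideal A) : Subgroup ZZ :=
  ((Matrix.GeneralLinearGroup.map (Ideal.Quotient.mk I)).comp rho).ker

instance (I : Ideal A) : (cong I).Normal := by unfold cong; infer_instance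

theorem mem_cong (I : Ideal A) (g : ZZ) : g ∈ cong I ↔ g.P ∈ I ∧ T g.n - 1 ∈ I := by
  rw [cong, MonoidHom.mem_ker]
  have h1 : ((Matrix.GeneralLinearGroup.map (Ideal.Quotient.mk I)).comp rho) g = 1 ↔
      Ideal.Quotient.mk I (T g.n) = 1 ∧ Ideal.Quotient.mk I g.P = 0 := by
    rw [Matrix.GeneralLinearGroup.ext_iff]
    simp [Fin.forall_fin_two, rho, mat]
  rw [h1, Ideal.Quotient.eq_zero_iff_mem, and_comm]
  have h2 : Ideal.Quotient.mk I (T g.n) = 1 ↔ (T g.n - 1 : A) ∈ I := by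
    rw [← Ideal.Quotient.eq_zero_iff_mem, map_sub, map_one, sub_eq_zero]
  rw [h2]

end ZZ

open ZZ

/-- The image of `S` in the quotient `G/N`. -/
def img (N : Subgroup ZZ) [N.Normal] (S : Set ZZ) : Set (ZZ ⧸ N) := QuotientGroup.mk' N '' S

/-- `I` defines a congruence box space: decreasing ideals of finite index such that the
congruence subgroups `G(I_k)` form a filtration. -/
def IsBox (I : ℕ → Ideal A) : Prop :=
  Antitone I ∧ (∀ k, Finite (A ⧸ I k)) ∧ (∀ k, (cong (I k)).FiniteIndex) ∧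
    ⨅ k, cong (I k) = ⊥

/-- Property `D_α` of the box space defined by `I`, with respect to the generating set `S`. -/
def PropD (S : Set ZZ) (I : ℕ → Ideal A) (α : ℝ) : Prop :=
  ∃ K : ℝ, 0 < K ∧ ∀ k, K * ((cong (I k)).index : ℝ) ^ α ≤ (diam (img (cong (I k)) S) : ℝ)

/-! ### General facts -/

theorem T_injective {n : ℤ} (h : (T n : A) = 1) : n = 0 := by
  have h1 := congrArg (fun P : A => P.coeff n) h
  rw [← T_zero] at h1
  simp only [T_apply] at h1
  by_contra hn
  rw [if_pos trivial, if_neg (Ne.symm hn)] at h1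
  exact one_ne_zero h1

theorem iInf_cong {I : ℕ → Ideal A} (h : ∀ P, (∀ k, P ∈ I k) → P = 0) :
    ⨅ k, cong (I k) = ⊥ := by
  rw [eq_bot_iff]
  intro g hg
  rw [Subgroup.mem_iInf] at hg
  have h1 : g.P = 0 := h _ fun k => ((mem_cong _ _).1 (hg k)).1
  have h2 : (T g.n - 1 : A) = 0 := h _ fun k => ((mem_cong _ _).1 (hg k)).2
  rw [Subgroup.mem_bot]
  ext1
  · exact h1
  · exact T_injective (sub_eq_zero.1 h2)

theorem mk_eq_iff (I : Ideal A) (g h : ZZ) :
    (QuotientGroup.mk' (cong I) g = QuotientGroup.mk' (cong I) h) ↔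
      h.P - g.P ∈ I ∧ T h.n - T g.n ∈ I := by
  rw [QuotientGroup.mk'_apply, QuotientGroup.mk'_apply, QuotientGroup.eq, mem_cong]
  have hT : (T g.n * T (-g.n) : A) = 1 := by rw [← T_add]; simp
  have e1 : (g⁻¹ * h).P = T (-g.n) * (h.P - g.P) := by
    simp only [mul_P, inv_P, inv_n]; ring
  have e2 : (T (g⁻¹ * h).n - 1 : A) = T (-g.n) * (T h.n - T g.n) := by
    simp only [mul_n, inv_n, T_add]
    rw [mul_sub, mul_comm (T (-g.n)) (T g.n), hT]
  rw [e1, e2]
  have key : ∀ x : A, T (-g.n) * x ∈ I ↔ x ∈ I := by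
    intro x
    constructor
    · intro hx
      have := I.mul_mem_left (T g.n) hx
      rwa [← mul_assoc, hT, one_mul] at this
    · intro hx
      exact I.mul_mem_left _ hx
  rw [key, key]

/-- The quotient `G/G(I)` embeds into `(A/I)²`. -/
noncomputable def toPair (I : Ideal A) (q : ZZ ⧸ cong I) : (A ⧸ I) × (A ⧸ I) :=
  (Ideal.Quotient.mk I q.out.P, Ideal.Quotient.mk I (T q.out.n))

theorem toPair_injective (I : Ideal A) : Function.Injective (toPair I) := by
  intro q r h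
  have h1 := congrArg Prod.fst h
  have h2 := congrArg Prod.snd h
  simp only [toPair] at h1 h2
  rw [Ideal.Quotient.eq] at h1 h2
  have h3 : QuotientGroup.mk' (cong I) r.out = QuotientGroup.mk' (cong I) q.out :=
    (mk_eq_iff I _ _).2 ⟨h1, h2⟩
  simp only [QuotientGroup.mk'_apply, QuotientGroup.out_eq'] at h3
  exact h3.symm

theorem finite_quot (I : Ideal A) [Finite (A ⧸ I)] : Finite (ZZ ⧸ cong I) :=
  Finite.of_injective _ (toPair_injective I)

theorem index_le (I : Ideal A) [Finite (A ⧸ I)] :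
    (cong I).index ≤ Nat.card (A ⧸ I) * Nat.card (A ⧸ I) := by
  rw [Subgroup.index, ← Nat.card_prod]
  exact Nat.card_le_card_of_injective _ (toPair_injective I)

theorem finiteIndex (I : Ideal A) [Finite (A ⧸ I)] : (cong I).FiniteIndex := by
  have := finite_quot I
  exact Subgroup.finiteIndex_of_finite_quotient

theorem le_index (I : Ideal A) [Finite (A ⧸ I)] {ι : Type} (h : ι → A)
    (hh : ∀ i j, h i - h j ∈ I → i = j) : Nat.card ι ≤ (cong I).index := by
  have := finite_quot I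
  rw [Subgroup.index]
  refine Nat.card_le_card_of_injective
    (fun i => QuotientGroup.mk' (cong I) (⟨h i, 0⟩ : ZZ)) ?_
  intro i j hij
  have h1 := (mk_eq_iff I _ _).1 hij
  exact (hh _ _ h1.1).symm

/-! ### The second question -/

/-- The ideal `(2^k, X^{2^k} - 1)`. -/
noncomputable def I2 (k : ℕ) : Ideal A := Ideal.span {C ((2 : ℤ) ^ k), T ((2 : ℤ) ^ k) - 1}

theorem memC (k : ℕ) : C ((2 : ℤ) ^ k) ∈ I2 k := Ideal.subset_span (by simp)
theorem memT (k : ℕ) : (T ((2 : ℤ) ^ k) - 1 : A) ∈ I2 k := Ideal.subset_span (by simp)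

theorem I2_anti : Antitone I2 := by
  apply antitone_nat_of_succ_le
  intro k
  rw [I2, Ideal.span_le]
  rintro x (rfl | rfl)
  · rw [pow_succ, map_mul]
    exact (I2 k).mul_mem_right _ (memC k)
  · have h : (T ((2 : ℤ) ^ (k + 1)) - 1 : A) = (T ((2 : ℤ) ^ k) + 1) * (T ((2 : ℤ) ^ k) - 1) := by
      have : (2 : ℤ) ^ (k + 1) = 2 ^ k + 2 ^ k := by ring
      rw [this, T_add]
      ring
    rw [h]
    exact (I2 k).mul_mem_left _ (memT k)

theorem memTq (k : ℕ) (q : ℤ) : (T ((2 : ℤ) ^ k * q) - 1 : A) ∈ I2 k := by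
  induction q using Int.induction_on with
  | zero => simp
  | succ q ih =>
    have h : (T ((2 : ℤ) ^ k * (q + 1)) - 1 : A) =
        T ((2 : ℤ) ^ k) * (T ((2 : ℤ) ^ k * q) - 1) + (T ((2 : ℤ) ^ k) - 1) := by
      rw [mul_add, mul_one, T_add]; ring
    rw [h]
    exact (I2 k).add_mem ((I2 k).mul_mem_left _ ih) (memT k)
  | pred q ih =>
    have h0 : (T (-(2 : ℤ) ^ k) * T ((2 : ℤ) ^ k) : A) = 1 := by rw [← T_add]; simp
    have h : (T ((2 : ℤ) ^ k * (-q - 1)) - 1 : A) =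
        T (-(2 : ℤ) ^ k) * (T ((2 : ℤ) ^ k * -q) - 1) -
          T (-(2 : ℤ) ^ k) * (T ((2 : ℤ) ^ k) - 1) := by
      have e : (2 : ℤ) ^ k * (-q - 1) = 2 ^ k * -q + -2 ^ k := by ring
      rw [e, T_add, mul_sub, mul_sub, h0]; ring
    rw [h]
    exact (I2 k).sub_mem ((I2 k).mul_mem_left _ ih) ((I2 k).mul_mem_left _ (memT k))

/-- Every Laurent polynomial is congruent to one with small exponents and coefficients. -/
theorem rep (k : ℕ) (P : A) : ∃ c : ℕ → ℕ, (∀ j, c j < 2 ^ k) ∧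
    P - ∑ j ∈ Finset.range (2 ^ k), C (c j : ℤ) * T (j : ℤ) ∈ I2 k := by
  induction P using LaurentPolynomial.induction_on' with
  | add P Q hP hQ =>
    obtain ⟨c, hc, h1⟩ := hP
    obtain ⟨c', hc', h2⟩ := hQ
    refine ⟨fun j => (c j + c' j) % 2 ^ k, fun j => Nat.mod_lt _ (by positivity), ?_⟩
    have h3 : P + Q - ∑ j ∈ Finset.range (2 ^ k), C (((c j + c' j) % 2 ^ k : ℕ) : ℤ) * T (j : ℤ) =
        (P - ∑ j ∈ Finset.range (2 ^ k), C (c j : ℤ) * T (j : ℤ)) +
        (Q - ∑ j ∈ Finset.range (2 ^ k), C (c' j : ℤ) * T (j : ℤ)) +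
        ∑ j ∈ Finset.range (2 ^ k), (C (((c j + c' j) / 2 ^ k : ℕ) : ℤ) * T (j : ℤ)) *
          C ((2 : ℤ) ^ k) := by
      have h4 : ∀ j, C (c j : ℤ) * T (j : ℤ) + C (c' j : ℤ) * T (j : ℤ) =
          C (((c j + c' j) % 2 ^ k : ℕ) : ℤ) * T (j : ℤ) +
          (C (((c j + c' j) / 2 ^ k : ℕ) : ℤ) * T (j : ℤ)) * C ((2 : ℤ) ^ k) := by
        intro j
        have h5 : ((c j : ℤ) + (c' j : ℤ)) = (((c j + c' j) % 2 ^ k : ℕ) : ℤ) +
            (((c j + c' j) / 2 ^ k : ℕ) : ℤ) * 2 ^ k := by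
          have := Nat.mod_add_div (c j + c' j) (2 ^ k)
          zify at this ⊢
          linarith
        rw [← add_mul, ← map_add, h5, map_add, map_mul]
        ring
      have h6 := Finset.sum_congr (rfl : Finset.range (2 ^ k) = Finset.range (2 ^ k))
        (fun j (_ : j ∈ Finset.range (2 ^ k)) => h4 j)
      rw [Finset.sum_add_distrib, Finset.sum_add_distrib] at h6
      have h7 : ∀ a b p q r s : A, a + b = r + s → p + q - r = p - a + (q - b) + s := by
        intro a b p q r s h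
        have : s = a + b - r := by rw [h]; ring
        rw [this]; ring
      exact h7 _ _ _ _ _ _ h6
    rw [h3]
    exact (I2 k).add_mem ((I2 k).add_mem h1 h2)
      ((I2 k).sum_mem fun j _ => (I2 k).mul_mem_left _ (memC k))
  | C_mul_T n a =>
    set m : ℤ := 2 ^ k with hm
    have hmpos : 0 < m := by positivity
    have hm' : ((2 ^ k : ℕ) : ℤ) = m := by push_cast; rfl
    set j0 := (n % m).toNat with hj0
    have hj0' : (j0 : ℤ) = n % m := Int.toNat_of_nonneg (Int.emod_nonneg _ hmpos.ne')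
    set c0 := (a % m).toNat with hc0
    have hc0' : (c0 : ℤ) = a % m := Int.toNat_of_nonneg (Int.emod_nonneg _ hmpos.ne')
    have hj0lt : j0 < 2 ^ k := by
      have := Int.emod_lt_of_pos n hmpos
      rw [← hj0', ← hm'] at this
      exact_mod_cast this
    have hc0lt : c0 < 2 ^ k := by
      have := Int.emod_lt_of_pos a hmpos
      rw [← hc0', ← hm'] at this
      exact_mod_cast this
    refine ⟨fun j => if j = j0 then c0 else 0, fun j => ?_, ?_⟩
    · beta_reduce
      split_ifs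
      · exact hc0lt
      · positivity
    · rw [Finset.sum_eq_single_of_mem j0 (Finset.mem_range.2 hj0lt)]
      · beta_reduce
        rw [if_pos rfl, hc0', hj0']
        have e1 : n = n % m + m * (n / m) := (Int.emod_add_mul_ediv n m).symm
        have e2 : a = a % m + m * (a / m) := (Int.emod_add_mul_ediv a m).symm
        have h : C a * T n - C (a % m) * T (n % m) =
            C a * T (n % m) * (T (m * (n / m)) - 1) + C (a / m) * T (n % m) * C m := by
          have h1 : (T n : A) = T (n % m) * T (m * (n / m)) := by rw [← T_add, ← e1]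
          have h2 : (C a : A) = C (a % m) + C m * C (a / m) := by
            rw [← map_mul, ← map_add, ← e2]
          rw [h1]
          have h3 : C a * (T (n % m) * T (m * (n / m))) - C (a % m) * T (n % m) =
            C a * T (n % m) * (T (m * (n / m)) - 1) + (C a - C (a % m)) * T (n % m) := by ring
          rw [h3]
          have h4 : (C a - C (a % m) : A) = C m * C (a / m) := by rw [h2]; ring
          rw [h4]
          ring
        rw [h]
        exact (I2 k).add_mem ((I2 k).mul_mem_left _ (memTq k _)) ((I2 k).mul_mem_left _ (memC k))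
      · intro j _ hj
        beta_reduce
        rw [if_neg hj]
        simp

instance finite_I2 (k : ℕ) : Finite (A ⧸ I2 k) := by
  apply Finite.of_surjective (α := Fin (2 ^ k) → Fin (2 ^ k))
    (fun v => Ideal.Quotient.mk (I2 k)
      (∑ j ∈ Finset.range (2 ^ k), C ((if h : j < 2 ^ k then (v ⟨j, h⟩ : ℕ) else 0 : ℕ) : ℤ) *
        T (j : ℤ)))
  intro q
  obtain ⟨P, rfl⟩ := Ideal.Quotient.mk_surjective q
  obtain ⟨c, hc, h⟩ := rep k P
  refine ⟨fun j => ⟨c j, hc j⟩, ?_⟩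
  symm
  rw [Ideal.Quotient.eq]
  convert h using 2
  apply Finset.sum_congr rfl
  intro j hj
  rw [dif_pos (Finset.mem_range.1 hj)]

/-- The target of the reduction map. -/
abbrev Sk (k : ℕ) : Type := AddMonoidAlgebra (ZMod (2 ^ k)) (ZMod (2 ^ k))

/-- The unit `X` of the target. -/
noncomputable def uk (k : ℕ) : (Sk k)ˣ where
  val := AddMonoidAlgebra.single 1 1
  inv := AddMonoidAlgebra.single (-1) 1
  val_inv := by
    rw [AddMonoidAlgebra.single_mul_single]
    simp [AddMonoidAlgebra.one_def]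
  inv_val := by
    rw [AddMonoidAlgebra.single_mul_single]
    simp [AddMonoidAlgebra.one_def]

theorem uk_zpow (k : ℕ) (n : ℤ) :
    ((uk k ^ n : (Sk k)ˣ) : Sk k) = AddMonoidAlgebra.single (n : ZMod (2 ^ k)) 1 := by
  induction n using Int.induction_on with
  | zero => simp [AddMonoidAlgebra.one_def]
  | succ n ih =>
    rw [zpow_add, zpow_one, Units.val_mul, ih]
    change AddMonoidAlgebra.single _ _ * AddMonoidAlgebra.single _ _ = _
    rw [AddMonoidAlgebra.single_mul_single]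
    simp
  | pred n ih =>
    rw [zpow_sub, zpow_one, Units.val_mul, ih]
    change AddMonoidAlgebra.single _ _ * AddMonoidAlgebra.single _ _ = _
    rw [AddMonoidAlgebra.single_mul_single]
    simp [sub_eq_add_neg]

/-- Reduction modulo `(2^k, X^{2^k} - 1)`. -/
noncomputable def red (k : ℕ) : A →+* Sk k := eval₂ (Int.castRingHom (Sk k)) (uk k)

theorem red_C_mul_T (k : ℕ) (n a : ℤ) : red k (C a * T n) =
    AddMonoidAlgebra.single (n : ZMod (2 ^ k)) (a : ZMod (2 ^ k)) := by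
  rw [red, eval₂_C_mul_T, uk_zpow]
  have h : (Int.castRingHom (Sk k)) a = AddMonoidAlgebra.single 0 (a : ZMod (2 ^ k)) := by
    have h2 := map_intCast (AddMonoidAlgebra.singleZeroRingHom
      (R := ZMod (2 ^ k)) (M := ZMod (2 ^ k))) a
    rw [eq_intCast]
    exact h2.symm
  rw [h, AddMonoidAlgebra.single_mul_single]
  simp

theorem red_coeff (k : ℕ) (P : A) (r : ZMod (2 ^ k)) : (red k P).coeff r =
    P.coeff.sum fun n a => if (n : ZMod (2 ^ k)) = r then (a : ZMod (2 ^ k)) else 0 := by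
  induction P using LaurentPolynomial.induction_on' with
  | add P Q hP hQ =>
    rw [map_add]
    have h1 : (red k P + red k Q).coeff r = (red k P).coeff r + (red k Q).coeff r := rfl
    have h2 : (P + Q).coeff = P.coeff + Q.coeff := rfl
    rw [h1, h2, hP, hQ, Finsupp.sum_add_index']
    · intro n; simp
    · intro n a b
      split_ifs
      · push_cast; rfl
      · simp
  | C_mul_T n a =>
    rw [red_C_mul_T, ← single_eq_C_mul_T]
    change (Finsupp.single (n : ZMod (2 ^ k)) (a : ZMod (2 ^ k))) r =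
      (Finsupp.single n a).sum _
    rw [Finsupp.sum_single_index (by simp), Finsupp.single_apply]

theorem I2_le_ker (k : ℕ) : I2 k ≤ RingHom.ker (red k) := by
  rw [I2, Ideal.span_le]
  rintro x (rfl | rfl)
  · rw [SetLike.mem_coe, RingHom.mem_ker]
    have h := red_C_mul_T k 0 ((2 : ℤ) ^ k)
    rw [T_zero, mul_one] at h
    rw [h]
    have : (((2 : ℤ) ^ k : ℤ) : ZMod (2 ^ k)) = 0 := by
      have := ZMod.natCast_self (2 ^ k)
      push_cast at this ⊢
      exact this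
    rw [this]
    simp
  · rw [SetLike.mem_coe, RingHom.mem_ker, map_sub, map_one, sub_eq_zero]
    have h := red_C_mul_T k ((2 : ℤ) ^ k) 1
    rw [map_one, one_mul] at h
    rw [h]
    have : (((2 : ℤ) ^ k : ℤ) : ZMod (2 ^ k)) = 0 := by
      have := ZMod.natCast_self (2 ^ k)
      push_cast at this ⊢
      exact this
    rw [this]
    simp [AddMonoidAlgebra.one_def]

theorem cast_ne {k : ℕ} {x : ℤ} (hx : x ≠ 0) (h : |x| < 2 ^ k) : (x : ZMod (2 ^ k)) ≠ 0 := by
  intro h0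
  rw [ZMod.intCast_zmod_eq_zero_iff_dvd] at h0
  have := Int.le_of_dvd (abs_pos.2 hx) ((dvd_abs _ _).2 h0)
  push_cast at this
  linarith

theorem inter_I2 (P : A) (h : ∀ k, P ∈ I2 k) : P = 0 := by
  by_contra hP
  have hne : P.coeff ≠ 0 := by
    intro h0
    apply hP
    ext n
    rw [h0]
    rfl
  obtain ⟨n0, hn0⟩ := Finsupp.support_nonempty_iff.2 hne
  rw [Finsupp.mem_support_iff] at hn0
  set B : ℕ := (∑ n ∈ P.coeff.support, |n - n0| + |P.coeff n0|).toNat with hB
  have hBge : (∑ n ∈ P.coeff.support, |n - n0| + |P.coeff n0|) ≤ B := Int.self_le_toNat _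
  have h2 : (B : ℤ) < 2 ^ B := by exact_mod_cast Nat.lt_two_pow_self
  have h3 := I2_le_ker B (h B)
  rw [RingHom.mem_ker] at h3
  have h4 := red_coeff B P (n0 : ZMod (2 ^ B))
  rw [h3] at h4
  have h5 : P.coeff.sum (fun n a => if (n : ZMod (2 ^ B)) = (n0 : ZMod (2 ^ B)) then
      (a : ZMod (2 ^ B)) else 0) = (P.coeff n0 : ZMod (2 ^ B)) := by
    unfold Finsupp.sum
    rw [Finset.sum_eq_single n0]
    · beta_reduce
      rw [if_pos rfl]
    · intro n hn hne'
      beta_reduce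
      rw [if_neg]
      intro h6
      have h7 : ((n - n0 : ℤ) : ZMod (2 ^ B)) = 0 := by
        push_cast; rw [h6, sub_self]
      refine cast_ne (sub_ne_zero.2 hne') ?_ h7
      have h8 : |n - n0| ≤ ∑ n ∈ P.coeff.support, |n - n0| :=
        Finset.single_le_sum (f := fun n => |n - n0|) (fun _ _ => abs_nonneg _) hn
      have := abs_nonneg (P.coeff n0)
      linarith
    · intro h6
      rw [Finsupp.mem_support_iff, not_not] at h6
      exact absurd h6 hn0
  rw [h5] at h4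
  refine cast_ne hn0 ?_ h4.symm
  have : 0 ≤ ∑ n ∈ P.coeff.support, |n - n0| := Finset.sum_nonneg fun _ _ => abs_nonneg _
  linarith

theorem index_I2 (k : ℕ) : (2 ^ k) ^ (2 ^ k) ≤ (cong (I2 k)).index := by
  have h := le_index (I2 k) (ι := Fin (2 ^ k) → Fin (2 ^ k))
    (fun v => ∑ j : Fin (2 ^ k), C ((v j : ℕ) : ℤ) * T ((j : ℕ) : ℤ)) (by
      intro v w hvw
      have h1 := I2_le_ker k hvw
      rw [RingHom.mem_ker, map_sub, sub_eq_zero, map_sum, map_sum] at h1
      simp only [red_C_mul_T] at h1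
      have key : ∀ (u : Fin (2 ^ k) → Fin (2 ^ k)) (i : Fin (2 ^ k)),
          (∑ j : Fin (2 ^ k), (AddMonoidAlgebra.single (((j : ℕ) : ℤ) : ZMod (2 ^ k))
            ((((u j : ℕ) : ℤ)) : ZMod (2 ^ k)) : Sk k)).coeff
              (((i : ℕ) : ℤ) : ZMod (2 ^ k)) = ((u i : ℕ) : ZMod (2 ^ k)) := by
        intro u i
        have h2 : (∑ j : Fin (2 ^ k), (AddMonoidAlgebra.single (((j : ℕ) : ℤ) : ZMod (2 ^ k))
            ((((u j : ℕ) : ℤ)) : ZMod (2 ^ k)) : Sk k)).coeff =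
            ∑ j : Fin (2 ^ k), Finsupp.single (((j : ℕ) : ℤ) : ZMod (2 ^ k))
            ((((u j : ℕ) : ℤ)) : ZMod (2 ^ k)) :=
          map_sum (AddMonoidAlgebra.coeffAddEquiv (R := ZMod (2 ^ k)) (M := ZMod (2 ^ k))) _ _
        rw [h2, Finsupp.finsetSum_apply, Finset.sum_eq_single i]
        · simp
        · intro j _ hj
          rw [Finsupp.single_apply, if_neg]
          intro h3
          apply hj
          have h4 : ((j : ℕ) : ZMod (2 ^ k)) = ((i : ℕ) : ZMod (2 ^ k)) := by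
            exact_mod_cast h3
          have h5 := (ZMod.natCast_eq_natCast_iff' _ _ _).1 h4
          rw [Nat.mod_eq_of_lt j.2, Nat.mod_eq_of_lt i.2] at h5
          exact Fin.ext h5
        · intro h3
          exact absurd (Finset.mem_univ i) h3
      funext i
      have h2 := congrArg (fun x : Sk k => x.coeff (((i : ℕ) : ℤ) : ZMod (2 ^ k))) h1
      simp only [key] at h2
      have h5 := (ZMod.natCast_eq_natCast_iff' _ _ _).1 h2
      rw [Nat.mod_eq_of_lt (v i).2, Nat.mod_eq_of_lt (w i).2] at h5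
      exact Fin.ext h5)
  simpa using h

/-- The element `a^{c 0} t a^{c 1} t ⋯`. -/
noncomputable def hs (c : ℕ → ℕ) : ℕ → ZZ
  | 0 => 1
  | j + 1 => hs c j * (⟨1, 0⟩ ^ c j * ⟨0, 1⟩)

theorem pow_a (c : ℕ) : ((⟨1, 0⟩ : ZZ) ^ c) = ⟨C (c : ℤ), 0⟩ := by
  induction c with
  | zero => ext1 <;> simp
  | succ c ih =>
    rw [pow_succ, ih]
    ext1
    · simp
    · simp

theorem pow_t (c : ℕ) : ((⟨0, 1⟩ : ZZ) ^ c) = ⟨0, c⟩ := by
  induction c with
  | zero => ext1 <;> simp
  | succ c ih =>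
    rw [pow_succ, ih]
    ext1
    · simp
    · simp

theorem hs_eq (c : ℕ → ℕ) (m : ℕ) :
    hs c m = ⟨∑ j ∈ Finset.range m, C (c j : ℤ) * T (j : ℤ), m⟩ := by
  induction m with
  | zero => ext1 <;> simp [hs]
  | succ m ih =>
    rw [hs, ih, pow_a]
    ext1
    · simp only [mul_P, Finset.sum_range_succ, mul_zero, add_zero]
      rw [mul_comm (T (m : ℤ))]
    · simp

theorem wlen_hs {S : Set ZZ} (hS : Subgroup.closure S = ⊤) (c : ℕ → ℕ) (N m : ℕ)
    (hc : ∀ j, c j ≤ N) :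
    wlen S (hs c m) ≤ m * (N * wlen S ⟨1, 0⟩ + wlen S ⟨0, 1⟩) := by
  induction m with
  | zero => simp [hs, wlen_one]
  | succ m ih =>
    rw [hs]
    have h1 := wlen_mul hS (hs c m) (⟨1, 0⟩ ^ c m * ⟨0, 1⟩)
    have h2 := wlen_mul hS (⟨1, 0⟩ ^ c m) ⟨0, 1⟩
    have h3 := wlen_pow hS ⟨1, 0⟩ (c m)
    have h4 : c m * wlen S ⟨1, 0⟩ ≤ N * wlen S ⟨1, 0⟩ := Nat.mul_le_mul_right _ (hc m)
    have h5 : (m + 1) * (N * wlen S ⟨1, 0⟩ + wlen S ⟨0, 1⟩) =
        m * (N * wlen S ⟨1, 0⟩ + wlen S ⟨0, 1⟩) + (N * wlen S ⟨1, 0⟩ + wlen S ⟨0, 1⟩) := by ring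
    rw [h5]
    omega

theorem diam_I2 {S : Set ZZ} (hS : Subgroup.closure S = ⊤) (k : ℕ) :
    diam (img (cong (I2 k)) S) ≤ 4 ^ k * (wlen S ⟨1, 0⟩ + 2 * wlen S ⟨0, 1⟩) := by
  apply diam_le
  intro q
  obtain ⟨g, rfl⟩ := QuotientGroup.mk'_surjective (cong (I2 k)) q
  obtain ⟨c, hc, h1⟩ := rep k g.P
  set m : ℤ := 2 ^ k with hm
  have hmpos : 0 < m := by positivity
  set j0 := (g.n % m).toNat with hj0
  have hj0' : (j0 : ℤ) = g.n % m := Int.toNat_of_nonneg (Int.emod_nonneg _ hmpos.ne')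
  have hm' : ((2 ^ k : ℕ) : ℤ) = m := by push_cast; rfl
  have hj0lt : j0 < 2 ^ k := by
    have := Int.emod_lt_of_pos g.n hmpos
    rw [← hj0', ← hm'] at this
    exact_mod_cast this
  have h2 : QuotientGroup.mk' (cong (I2 k)) g =
      QuotientGroup.mk' (cong (I2 k)) (hs c (2 ^ k) * ⟨0, 1⟩ ^ j0) := by
    rw [eq_comm, mk_eq_iff, hs_eq, pow_t]
    constructor
    · simpa using h1
    · simp only [mul_n]
      rw [hj0', hm']
      have e1 : g.n = g.n % m + m * (g.n / m) := (Int.emod_add_mul_ediv g.n m).symm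
      have e2 : (T g.n - T (m + g.n % m) : A) =
          T (g.n % m) * (T (m * (g.n / m)) - 1) - T (g.n % m) * (T m - 1) := by
        have e3 : (T g.n : A) = T (g.n % m) * T (m * (g.n / m)) := by rw [← T_add, ← e1]
        rw [T_add, e3]
        ring
      rw [e2]
      exact (I2 k).sub_mem ((I2 k).mul_mem_left _ (memTq k _)) ((I2 k).mul_mem_left _ (memT k))
  rw [h2]
  have h3 := wlen_map hS (QuotientGroup.mk' (cong (I2 k))) (hs c (2 ^ k) * ⟨0, 1⟩ ^ j0)
  refine h3.trans ?_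
  have h4 := wlen_mul hS (hs c (2 ^ k)) (⟨0, 1⟩ ^ j0)
  have h5 := wlen_hs hS c (2 ^ k) (2 ^ k) (fun j => (hc j).le)
  have h6 := wlen_pow hS ⟨0, 1⟩ j0
  have h7 : j0 * wlen S ⟨0, 1⟩ ≤ 2 ^ k * wlen S ⟨0, 1⟩ := Nat.mul_le_mul_right _ hj0lt.le
  have h8 : (4 : ℕ) ^ k = 2 ^ k * 2 ^ k := by rw [← mul_pow]; norm_num
  have h9 : 2 ^ k * wlen S ⟨0, 1⟩ ≤ 2 ^ k * 2 ^ k * wlen S ⟨0, 1⟩ := by
    have : 1 ≤ 2 ^ k := Nat.one_le_two_pow
    nlinarith [Nat.zero_le (2 ^ k * wlen S (⟨0, 1⟩ : ZZ))]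
  rw [h8]
  nlinarith

theorem second : ∃ I : ℕ → Ideal A, IsBox I ∧
    ∀ S : Set ZZ, Subgroup.closure S = ⊤ → ∀ α : ℝ, 0 < α → ¬ PropD S I α := by
  refine ⟨I2, ⟨I2_anti, finite_I2, fun k => finiteIndex (I2 k), iInf_cong inter_I2⟩, ?_⟩
  rintro S hS α hα ⟨K, hK, h⟩
  set D : ℝ := ((wlen S (⟨1, 0⟩ : ZZ) + 2 * wlen S (⟨0, 1⟩ : ZZ) : ℕ) : ℝ) with hD
  obtain ⟨k, hk1, hk2⟩ : ∃ k : ℕ, 3 ≤ α * (2 : ℝ) ^ k ∧ D / K < (2 : ℝ) ^ k := by
    have ht : Filter.Tendsto (fun k : ℕ => (2 : ℝ) ^ k) Filter.atTop Filter.atTop :=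
      tendsto_pow_atTop_atTop_of_one_lt (by norm_num)
    have e1 := (ht.const_mul_atTop hα).eventually_ge_atTop 3
    have e2 := ht.eventually_gt_atTop (D / K)
    obtain ⟨k, hk⟩ := (e1.and e2).exists
    exact ⟨k, hk.1, hk.2⟩
  have h1 := h k
  have h2 : ((2 : ℝ) ^ k) ^ (3 : ℝ) ≤ ((cong (I2 k)).index : ℝ) ^ α := by
    have h3 : (((2 : ℝ) ^ k) ^ (2 ^ k : ℕ)) ≤ ((cong (I2 k)).index : ℝ) := by
      exact_mod_cast index_I2 k
    have h4 : (((2 : ℝ) ^ k) ^ (2 ^ k : ℕ)) ^ α ≤ ((cong (I2 k)).index : ℝ) ^ α :=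
      Real.rpow_le_rpow (by positivity) h3 hα.le
    refine le_trans ?_ h4
    rw [← Real.rpow_natCast ((2 : ℝ) ^ k) (2 ^ k), ← Real.rpow_mul (by positivity)]
    apply Real.rpow_le_rpow_of_exponent_le
    · exact one_le_pow₀ (by norm_num)
    · push_cast
      linarith
  have h5 : ((2 : ℝ) ^ k) ^ (3 : ℝ) = 4 ^ k * 2 ^ k := by
    have : ((2 : ℝ) ^ k) ^ (3 : ℝ) = ((2 : ℝ) ^ k) ^ (3 : ℕ) := by
      rw [← Real.rpow_natCast]; norm_num
    rw [this, ← mul_pow, ← pow_mul, mul_comm k 3, pow_mul]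
    norm_num
  have h6 : (diam (img (cong (I2 k)) S) : ℝ) ≤ 4 ^ k * D := by
    rw [hD]
    exact_mod_cast diam_I2 hS k
  rw [h5] at h2
  have h7 : K * (4 ^ k * 2 ^ k) ≤ 4 ^ k * D :=
    (mul_le_mul_of_nonneg_left h2 hK.le).trans (h1.trans h6)
  rw [div_lt_iff₀ hK] at hk2
  have h8 : (0 : ℝ) < 4 ^ k := by positivity
  nlinarith

/-! ### The first question -/

/-- The polynomial `f` does not vanish at some element of large order modulo a large prime. -/
theorem exists_prime (f : Polynomial ℤ) (hf : f ≠ 0) (B : ℕ) :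
    ∃ (p : ℕ) (_ : p.Prime), B < p ∧ ∃ a : (ZMod p)ˣ,
      Polynomial.eval₂ (Int.castRingHom (ZMod p)) (a : ZMod p) f ≠ 0 ∧ p ≤ orderOf a ^ 2 := by
  set J := f.natDegree + 1 with hJ
  obtain ⟨p, hpB, hp⟩ := Nat.exists_infinite_primes
    (B + J ^ 2 + 2 + f.leadingCoeff.natAbs)
  have : Fact p.Prime := ⟨hp⟩
  refine ⟨p, hp, by omega, ?_⟩
  obtain ⟨g, hg⟩ := IsCyclic.exists_generator (α := (ZMod p)ˣ)
  have hgo : orderOf g = p - 1 := by
    rw [orderOf_eq_card_of_forall_mem_zpowers hg, Nat.card_eq_fintype_card,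
      ZMod.card_units_eq_totient, Nat.totient_prime hp]
  set F : Polynomial (ZMod p) := f.map (Int.castRingHom (ZMod p)) with hF
  have hF0 : F ≠ 0 := by
    intro h0
    have h1 : F.coeff f.natDegree = 0 := by rw [h0]; simp
    rw [hF, Polynomial.coeff_map, Polynomial.coeff_natDegree, eq_intCast,
      ZMod.intCast_zmod_eq_zero_iff_dvd] at h1
    have hlc : f.leadingCoeff ≠ 0 := Polynomial.leadingCoeff_ne_zero.2 hf
    have h2 := Int.natAbs_dvd_natAbs.2 h1
    rw [Int.natAbs_natCast] at h2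
    have := Nat.le_of_dvd (Int.natAbs_pos.2 hlc) h2
    omega
  have hJp : J + 1 < p := by
    have : J ≤ J ^ 2 := Nat.le_self_pow two_ne_zero J
    omega
  obtain ⟨j, hj1, hjJ, hjne⟩ : ∃ j, 1 ≤ j ∧ j ≤ J ∧ ¬ F.IsRoot ((g ^ j : (ZMod p)ˣ) : ZMod p) := by
    by_contra hcon
    push Not at hcon
    have h1 : ((Finset.Icc 1 J).image fun j => ((g ^ j : (ZMod p)ˣ) : ZMod p)) ⊆
        F.roots.toFinset := by
      intro x hx
      obtain ⟨j, hj, rfl⟩ := Finset.mem_image.1 hx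
      rw [Finset.mem_Icc] at hj
      rw [Multiset.mem_toFinset, Polynomial.mem_roots hF0]
      exact hcon j hj.1 hj.2
    have h2 := Finset.card_le_card h1
    rw [Finset.card_image_of_injOn] at h2
    · have h3 : F.roots.toFinset.card ≤ F.natDegree :=
        (Multiset.toFinset_card_le _).trans (Polynomial.card_roots' F)
      have h4 : F.natDegree ≤ f.natDegree := Polynomial.natDegree_map_le
      simp at h2
      omega
    · intro i hi j hj hij
      rw [Finset.mem_coe, Finset.mem_Icc] at hi hj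
      have h3 : g ^ i = g ^ j := Units.ext hij
      rw [pow_inj_mod, hgo, Nat.mod_eq_of_lt (by omega), Nat.mod_eq_of_lt (by omega)] at h3
      exact h3
  refine ⟨g ^ j, ?_, ?_⟩
  · rw [← Polynomial.eval_map]
    exact hjne
  · have h1 : orderOf (g ^ j) * (p - 1).gcd j = p - 1 := by
      rw [orderOf_pow, hgo]
      exact Nat.div_mul_cancel (Nat.gcd_dvd_left _ _)
    have h2 : (p - 1).gcd j ≤ J := (Nat.gcd_le_right _ hj1).trans hjJ
    set d := orderOf (g ^ j)
    have h3 : p - 1 ≤ d * J := by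
      rw [← h1]; exact Nat.mul_le_mul_left _ h2
    have hJ1 : 1 ≤ J := by omega
    by_contra hlt
    push Not at hlt
    obtain ⟨r, rfl⟩ : ∃ r, p = r + 1 := ⟨p - 1, by omega⟩
    rw [Nat.add_sub_cancel] at h3
    have h4 : r * r ≤ (d * J) * (d * J) := Nat.mul_le_mul h3 h3
    have h5 : (d * J) * (d * J) = d ^ 2 * J ^ 2 := by ring
    have h6 : d ^ 2 * J ^ 2 ≤ r * J ^ 2 := Nat.mul_le_mul_right _ (by omega)
    have h7 : J ^ 2 < r := by omega
    have h8 : r * J ^ 2 < r * r := Nat.mul_lt_mul_of_pos_left h7 (by omega)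
    omega

/-- Evaluation at `a` modulo `p`. -/
noncomputable def evp (p : ℕ) (a : (ZMod p)ˣ) : A →+* ZMod p :=
  eval₂ (Int.castRingHom (ZMod p)) a

theorem evp_T (p : ℕ) (a : (ZMod p)ˣ) (n : ℤ) :
    evp p a (T n) = ((a ^ n : (ZMod p)ˣ) : ZMod p) := by
  rw [evp, eval₂_T]

/-- The ideal of the Laurent polynomials vanishing at `a i` modulo `p i` for all `i ≤ k`. -/
noncomputable def I1 (p : ℕ → ℕ) (a : ∀ i, (ZMod (p i))ˣ) (k : ℕ) : Ideal A :=
  RingHom.ker (RingHom.pi fun i : Fin (k + 1) => evp (p i) (a i))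

theorem mem_I1 (p : ℕ → ℕ) (a : ∀ i, (ZMod (p i))ˣ) (k : ℕ) (P : A) :
    P ∈ I1 p a k ↔ ∀ i ≤ k, evp (p i) (a i) P = 0 := by
  rw [I1, RingHom.mem_ker, funext_iff]
  constructor
  · intro h i hi
    exact h ⟨i, Nat.lt_succ_of_le hi⟩
  · intro h i
    exact h i (Nat.le_of_lt_succ i.2)

theorem I1_anti (p : ℕ → ℕ) (a : ∀ i, (ZMod (p i))ˣ) : Antitone (I1 p a) := by
  intro k l hkl P hP
  rw [mem_I1] at hP ⊢
  exact fun i hi => hP i (hi.trans hkl)

theorem finite_I1 (p : ℕ → ℕ) (hp : ∀ i, (p i).Prime) (a : ∀ i, (ZMod (p i))ˣ) (k : ℕ) :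
    Finite (A ⧸ I1 p a k) ∧ Nat.card (A ⧸ I1 p a k) ≤ ∏ i ∈ Finset.range (k + 1), p i := by
  have hne : ∀ i, NeZero (p i) := fun i => ⟨(hp i).ne_zero⟩
  have hinj := RingHom.kerLift_injective (RingHom.pi fun i : Fin (k + 1) => evp (p i) (a i))
  refine ⟨Finite.of_injective _ hinj, ?_⟩
  have h := Nat.card_le_card_of_injective _ hinj
  refine h.trans (le_of_eq ?_)
  rw [Nat.card_eq_fintype_card, Fintype.card_pi, Finset.prod_range]
  simp [ZMod.card]

/-- Elements of the quotient lift with small `ℤ` coordinate. -/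
theorem lift_small (N : Subgroup ZZ) [N.Normal] (S : Set ZZ) (c : ℕ)
    (hc : ∀ s ∈ S, |s.n| ≤ c) (l : List (ZZ ⧸ N)) (hl : ∀ x ∈ l, x ∈ img N S ∨ x⁻¹ ∈ img N S) :
    ∃ g : ZZ, QuotientGroup.mk' N g = l.prod ∧ |g.n| ≤ c * l.length := by
  induction l with
  | nil => exact ⟨1, by simp, by simp⟩
  | cons x l ih =>
    obtain ⟨g, hg, hgn⟩ := ih fun y hy => hl y (by simp [hy])
    obtain ⟨y, hy, hyn⟩ : ∃ y : ZZ, QuotientGroup.mk' N y = x ∧ |y.n| ≤ c := by
      rcases hl x (by simp) with ⟨s, hs, h⟩ | ⟨s, hs, h⟩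
      · exact ⟨s, h, hc s hs⟩
      · refine ⟨s⁻¹, by rw [map_inv, h, inv_inv], ?_⟩
        rw [inv_n, abs_neg]
        exact hc s hs
    refine ⟨y * g, by rw [map_mul, hy, hg, List.prod_cons], ?_⟩
    rw [mul_n, List.length_cons]
    have := abs_add_le y.n g.n
    push_cast
    linarith

theorem order_le (p : ℕ → ℕ) (hp : ∀ i, (p i).Prime) (a : ∀ i, (ZMod (p i))ˣ) (k : ℕ)
    (S : Set ZZ) (hS : Subgroup.closure S = ⊤) (c : ℕ) (hc : ∀ s ∈ S, |s.n| ≤ c) :
    orderOf (a k) ≤ 2 * (c * diam (img (cong (I1 p a k)) S)) + 1 := by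
  have := (finite_I1 p hp a k).1
  have := finite_quot (I1 p a k)
  have hne : NeZero (p k) := ⟨(hp k).ne_zero⟩
  set N := cong (I1 p a k) with hN
  set r := diam (img N S) with hr
  have hgen : Subgroup.closure (img N S) = ⊤ := by
    unfold img
    rw [← MonoidHom.map_closure, hS, ← MonoidHom.range_eq_map]
    exact MonoidHom.range_eq_top.2 (QuotientGroup.mk'_surjective N)
  have key : ∀ j : ℕ, ∃ n : ℤ, |n| ≤ c * r ∧ (a k) ^ n = (a k) ^ j := by
    intro j
    obtain ⟨l, h1, h2, h3⟩ := exists_geo (q := QuotientGroup.mk' N (⟨0, j⟩ : ZZ))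
      (S := img N S) (by rw [hgen]; trivial)
    obtain ⟨g, hg, hgn⟩ := lift_small N S c hc l h2
    refine ⟨g.n, ?_, ?_⟩
    · have h4 : l.length ≤ r := by rw [h1]; exact le_diam _ _
      have h5 : (l.length : ℤ) ≤ r := by exact_mod_cast h4
      have h6 : (0 : ℤ) ≤ c := by positivity
      nlinarith
    · rw [h3, mk_eq_iff] at hg
      have h4 := (mem_I1 p a k _).1 hg.2 k le_rfl
      rw [map_sub, evp_T, evp_T, sub_eq_zero] at h4
      have h5 := Units.ext h4
      rw [← h5, zpow_natCast]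
  choose n hn1 hn2 using key
  have hinj : Set.InjOn n (Finset.range (orderOf (a k)) : Set ℕ) := by
    intro i hi j hj hij
    rw [Finset.coe_range, Set.mem_Iio] at hi hj
    have h1 : (a k) ^ i = (a k) ^ j := by rw [← hn2 i, ← hn2 j, hij]
    rw [pow_inj_mod, Nat.mod_eq_of_lt hi, Nat.mod_eq_of_lt hj] at h1
    exact h1
  have hmaps : ∀ i ∈ Finset.range (orderOf (a k)),
      n i ∈ Finset.Icc (-((c : ℤ) * r)) (c * r) := by
    intro i _
    rw [Finset.mem_Icc]
    exact abs_le.1 (hn1 i)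
  have h1 := Finset.card_le_card_of_injOn n hmaps hinj
  rw [Finset.card_range, Int.card_Icc] at h1
  refine h1.trans ?_
  have : ((c : ℤ) * r + 1 - -((c : ℤ) * r)).toNat = 2 * (c * r) + 1 := by
    have : ((c : ℤ) * r + 1 - -((c : ℤ) * r)) = ((2 * (c * r) + 1 : ℕ) : ℤ) := by
      push_cast; ring
    rw [this, Int.toNat_natCast]
  rw [this]

theorem countable_poly : Countable (Polynomial ℤ) := by
  have h : Function.Injective fun f : Polynomial ℤ => f.toFinsupp.coeff := by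
    intro f g hfg
    apply Polynomial.toFinsupp_injective
    exact AddMonoidAlgebra.coeff_injective hfg
  exact h.countable

theorem first : ∃ I : ℕ → Ideal A, IsBox I ∧ ∀ S : Set ZZ, S.Finite →
    Subgroup.closure S = ⊤ → PropD S I (1 / 8) := by
  have := countable_poly
  -- enumerate the nonzero polynomials
  have hne : Nonempty {f : Polynomial ℤ // f ≠ 0} := ⟨⟨1, one_ne_zero⟩⟩
  obtain ⟨F, hF⟩ := exists_surjective_nat {f : Polynomial ℤ // f ≠ 0}
  choose pp hpp hpB aa haa hord using fun (x : ℕ × ℕ) =>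
    exists_prime (F x.2).1 (F x.2).2 x.1
  -- products of the primes chosen so far
  let σ : ℕ → ℕ := fun j => Nat.rec 1 (fun j s => s * pp (s, j)) j
  have hσ : ∀ j, σ (j + 1) = σ j * pp (σ j, j) := fun j => rfl
  set p : ℕ → ℕ := fun j => pp (σ j, j) with hp
  set a : ∀ j, (ZMod (p j))ˣ := fun j => aa (σ j, j) with ha
  have hprime : ∀ j, (p j).Prime := fun j => hpp (σ j, j)
  have hprod : ∀ j, ∏ i ∈ Finset.range j, p i = σ j := by
    intro j
    induction j with
    | zero => rfl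
    | succ j ih => rw [Finset.prod_range_succ, ih, hσ]
  have hlt : ∀ j, σ j < p j := fun j => hpB (σ j, j)
  have hordj : ∀ j, p j ≤ orderOf (a j) ^ 2 := fun j => hord (σ j, j)
  have hbox : IsBox (I1 p a) := by
    refine ⟨I1_anti p a, fun k => (finite_I1 p hprime a k).1, fun k => ?_, ?_⟩
    · have := (finite_I1 p hprime a k).1
      exact finiteIndex _
    · apply iInf_cong
      intro P hP
      by_contra hP0
      obtain ⟨n, f, hf⟩ := exists_T_pow P
      have hf0 : f ≠ 0 := by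
        intro h0
        rw [h0, map_zero] at hf
        apply hP0
        have : P * T n * T (-n) = 0 := by rw [← hf, zero_mul]
        rwa [mul_assoc, ← T_add, add_neg_cancel, T_zero, mul_one] at this
      obtain ⟨j, hj⟩ := hF ⟨f, hf0⟩
      have h1 := haa (σ j, j)
      apply h1
      have h2 : (F (σ j, j).2).1 = f := by rw [hj]
      rw [h2, ← eval₂_toLaurent, hf, map_mul]
      have h3 := (mem_I1 p a j P).1 (hP j) j le_rfl
      have h4 : eval₂ (Int.castRingHom (ZMod (pp (σ j, j)))) (aa (σ j, j)) P = 0 := h3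
      rw [h4, zero_mul]
  refine ⟨I1 p a, hbox, fun S hSfin hS => ?_⟩
  obtain ⟨c, hc1, hc⟩ : ∃ c : ℕ, 1 ≤ c ∧ ∀ s ∈ S, |s.n| ≤ c := by
    obtain ⟨b, hb⟩ := (hSfin.image fun s : ZZ => s.n.natAbs).bddAbove
    refine ⟨b + 1, by omega, fun s hs => ?_⟩
    have := hb ⟨s, hs, rfl⟩
    rw [Int.abs_eq_natAbs]
    have h2 : s.n.natAbs ≤ b + 1 := by
      change s.n.natAbs ≤ b at this
      omega
    exact_mod_cast h2
  have hc1' : (1 : ℝ) ≤ c := by exact_mod_cast hc1
  refine ⟨1 / (4 * c), by positivity, fun k => ?_⟩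
  have hfin := (finite_I1 p hprime a k).1
  set d := orderOf (a k) with hd
  set r := diam (img (cong (I1 p a k)) S) with hr
  have h1 : d ≤ 2 * (c * r) + 1 := order_le p hprime a k S hS c hc
  have h2 : (cong (I1 p a k)).index ≤ p k ^ 4 := by
    have e1 := index_le (I1 p a k)
    have e2 := (finite_I1 p hprime a k).2
    rw [hprod, hσ] at e2
    have e3 : σ k * pp (σ k, k) ≤ p k ^ 2 := by
      rw [sq]
      exact Nat.mul_le_mul_right _ (hlt k).le
    have e4 := e2.trans e3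
    calc (cong (I1 p a k)).index ≤ _ := e1
      _ ≤ p k ^ 2 * p k ^ 2 := Nat.mul_le_mul e4 e4
      _ = p k ^ 4 := by ring
  have h3 : p k ^ 4 ≤ d ^ 8 := by
    calc p k ^ 4 ≤ (d ^ 2) ^ 4 := Nat.pow_le_pow_left (hordj k) 4
      _ = d ^ 8 := by ring
  have h4 : ((cong (I1 p a k)).index : ℝ) ^ (1 / 8 : ℝ) ≤ d := by
    have e1 : ((cong (I1 p a k)).index : ℝ) ≤ (d : ℝ) ^ (8 : ℕ) := by exact_mod_cast h2.trans h3
    calc ((cong (I1 p a k)).index : ℝ) ^ (1 / 8 : ℝ) ≤ ((d : ℝ) ^ (8 : ℕ)) ^ (1 / 8 : ℝ) :=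
          Real.rpow_le_rpow (by positivity) e1 (by norm_num)
      _ = d := by
          rw [← Real.rpow_natCast, ← Real.rpow_mul (by positivity)]
          norm_num
  have hd2 : 2 ≤ d := by
    by_contra hlt
    push Not at hlt
    have e1 := hordj k
    have e2 := (hprime k).two_le
    have e3 : orderOf (a k) ^ 2 ≤ 1 := by
      have : orderOf (a k) ≤ 1 := by omega
      calc orderOf (a k) ^ 2 ≤ 1 ^ 2 := Nat.pow_le_pow_left this 2
        _ = 1 := by norm_num
    omega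
  have h5 : d ≤ 4 * (c * r) := by omega
  have h5' : (d : ℝ) ≤ 4 * (c * r) := by exact_mod_cast h5
  have hcpos : (0 : ℝ) < 4 * c := by positivity
  rw [div_mul_eq_mul_div, one_mul, div_le_iff₀ hcpos]
  linarith

theorem result :
    (∃ I : ℕ → Ideal A, IsBox I ∧ ∃ α : ℝ, 0 < α ∧ α ≤ 1 ∧
      ∀ S : Set ZZ, S.Finite → Subgroup.closure S = ⊤ → PropD S I α) ∧
    (∃ I : ℕ → Ideal A, IsBox I ∧ ∀ S : Set ZZ, S.Finite → Subgroup.closure S = ⊤ →
      ∀ α : ℝ, 0 < α → α ≤ 1 → ¬ PropD S I α) := by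
  constructor
  · obtain ⟨I, hI, h⟩ := first
    exact ⟨I, hI, 1 / 8, by norm_num, by norm_num, h⟩
  · obtain ⟨I, hI, h⟩ := second
    exact ⟨I, hI, fun S _ hS α hα _ => h S hS α hα⟩

end Pool.Agent.Results.MP_625351_al.BoxSpaces
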